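import Pool.Agent.H446R2.CycleCount
import Pool.Agent.H53.MC.Lfl

set_option autoImplicit false

/-! Lengths of cycles in short windows. -/

namespace Pool.Agent.Q179.CY

open Finset Filter Topology Pool.Agent.H446R2.CS

/-- `P ^ θ ≤ C P exp (-c √(log P))` for `θ < 1` -/
theorem rpow_le {θ : ℝ} (hθ : θ < 1) (c : ℝ) (P : ℝ) (hP : 1 ≤ P) :
    P ^ θ ≤ Real.exp (c ^ 2 / (4 * (1 - θ))) * (P * Real.exp (-(c * Real.sqrt (Real.log P)))) := by
  have hP0 : 0 < P := by linarith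
  have h1θ : 0 < 1 - θ := by linarith
  set S := Real.sqrt (Real.log P) with hS
  have hSsq : S ^ 2 = Real.log P := Real.sq_sqrt (Real.log_nonneg hP)
  have h2 : Real.exp (c ^ 2 / (4 * (1 - θ))) * (P * Real.exp (-(c * S))) =
      Real.exp (c ^ 2 / (4 * (1 - θ)) + (Real.log P + -(c * S))) := by
    rw [Real.exp_add, Real.exp_add, Real.exp_log hP0]
  rw [h2, Real.rpow_def_of_pos hP0]
  apply Real.exp_le_exp.2
  have h3 : 0 ≤ (1 - θ) * (S - c / (2 * (1 - θ))) ^ 2 := by positivity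
  have h4 : (1 - θ) * (S - c / (2 * (1 - θ))) ^ 2 = (1 - θ) * S ^ 2 - c * S + c ^ 2 / (4 * (1 - θ)) := by
    field_simp
    ring
  rw [h4, hSsq] at h3
  linarith

variable {T : ℤ → ℤ} {d β : ℕ} {e : ℤ → ℕ} {K : ℝ}

/-- the numbers in the window `(Q, Q + P]` which are the number of elements of a cycle -/
def lens (T : ℤ → ℤ) (Q P : ℕ) : Set ℕ := {p : ℕ | (Q < p ∧ p ≤ Q + P) ∧ ∃ c : Finset ℤ, IsCycle T c ∧ c.card = p}

theorem windows (hd : 2 ≤ d) (hβ : 2 ≤ β) (hc : Nat.Coprime β d) {δ : ℝ} (hδ : 0 < δ) :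
    ∃ c : ℝ, 0 < c ∧ ∀ (T : ℤ → ℤ) (e : ℤ → ℕ) (K : ℝ), Model T d β e K → ∃ C : ℝ, 0 < C ∧ ∀ Q P : ℕ, 1 ≤ P →
      Real.log (Q + 1) ^ (1 + δ) ≤ P →
      ((lens T Q P).ncard : ℝ) ≤ C * P * Real.exp (-(c * Real.sqrt (Real.log P))) := by
  classical
  set κ : ℝ := δ / (2 * (1 + δ)) with hκ
  have hκ0 : 0 < κ := by positivity
  obtain ⟨c, hc0, hcnt⟩ := Pool.Agent.H53.MC.count d β hd hβ hc κ hκ0
  have hlβ : 0 < Real.log β := Real.log_pos (by exact_mod_cast (by omega : 1 < β))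
  refine ⟨c, hc0, fun T e K M => ?_⟩
  obtain ⟨C1, hC1, h1⟩ := hcnt (Real.log β) hlβ
  obtain ⟨C2, hC2, h2⟩ := M.count
  set ι : ℝ := 1 / (1 + δ) with hι
  have hι0 : 0 < ι := by positivity
  set θ : ℝ := κ + ι with hθ
  have hθ1 : θ < 1 := by
    have : θ = 1 - δ / (2 * (1 + δ)) := by rw [hθ, hκ, hι]; field_simp; ring
    rw [this]
    have : 0 < δ / (2 * (1 + δ)) := by positivity
    linarith
  set A : ℝ := 2 + 2 / ι + κ / ι with hA
  have hA0 : 0 < A := by positivity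
  set B : ℝ := Real.exp (c ^ 2 / (4 * (1 - θ))) with hB
  have hB0 : 0 < B := Real.exp_pos _
  refine ⟨C1 + (C2 * A + 1) * B, by positivity, fun Q P hP hQ => ?_⟩
  have hPr : (1 : ℝ) ≤ P := by exact_mod_cast hP
  have hP0 : (0 : ℝ) < P := by linarith
  have hQ0 : (0 : ℝ) ≤ Q := Nat.cast_nonneg Q
  set ε : ℝ := (P : ℝ) ^ (-κ) with hε
  have hε0 : 0 < ε := Real.rpow_pos_of_pos hP0 _
  have hε1 : ε ≤ 1 := Real.rpow_le_one_of_one_le_of_nonpos hPr (by linarith)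
  have hfin : (lens T Q P).Finite := (Set.finite_Iic (Q + P)).subset (fun p hp => hp.1.2)
  set F : Finset ℕ := hfin.toFinset with hF
  have hFm : ∀ p, p ∈ F ↔ p ∈ lens T Q P := fun p => Set.Finite.mem_toFinset _
  rw [Set.ncard_eq_toFinset_card _ hfin]
  -- the two parts
  set F1 := F.filter (fun p : ℕ => ∃ k : ℤ, |(p : ℝ) * (Real.log d / Real.log β) - k| < ε) with hF1
  set F2 := F.filter (fun p : ℕ => ¬ ∃ k : ℤ, |(p : ℝ) * (Real.log d / Real.log β) - k| < ε) with hF2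
  have hsplit : (F.card : ℝ) = F1.card + F2.card := by
    have := Finset.card_filter_add_card_filter_not (s := F) (fun p : ℕ => ∃ k : ℤ, |(p : ℝ) * (Real.log d / Real.log β) - k| < ε)
    rw [hF1, hF2]
    exact_mod_cast this.symm
  have hb1 : (F1.card : ℝ) ≤ C1 * P * Real.exp (-(c * Real.sqrt (Real.log P))) := by
    apply h1 Q P hP
    intro p hp
    rw [hF1, mem_filter, hFm] at hp
    obtain ⟨⟨hp1, _⟩, k, hk⟩ := hp
    refine ⟨hp1, k, ?_⟩
    have e1 : (p : ℝ) * Real.log d - k * Real.log β = ((p : ℝ) * (Real.log d / Real.log β) - k) * Real.log β := by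
      field_simp
    rw [e1, abs_mul, abs_of_pos hlβ, mul_comm]
    exact mul_le_mul_of_nonneg_left hk.le hlβ.le
  -- cycles for the second part
  have hch : ∀ p : ℕ, ∃ c : Finset ℤ, p ∈ F2 → IsCycle T c ∧ c.card = p := by
    intro p
    by_cases hp : p ∈ F2
    · rw [hF2, mem_filter, hFm] at hp
      obtain ⟨⟨_, c, h3, h4⟩, _⟩ := hp
      exact ⟨c, fun _ => ⟨h3, h4⟩⟩
    · exact ⟨∅, fun h => absurd h hp⟩
  choose Z hZ using hch
  set F3 := F2.filter (fun p : ℕ => (0 : ℤ) ∉ Z p) with hF3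
  set F4 := F2.filter (fun p : ℕ => ¬ (0 : ℤ) ∉ Z p) with hF4
  have hsplit2 : (F2.card : ℝ) = F3.card + F4.card := by
    have := Finset.card_filter_add_card_filter_not (s := F2) (fun p : ℕ => (0 : ℤ) ∉ Z p)
    rw [hF3, hF4]
    exact_mod_cast this.symm
  have hb4 : (F4.card : ℝ) ≤ 1 := by
    have : F4.card ≤ 1 := by
      rw [Finset.card_le_one]
      intro p hp q hq
      rw [hF4, mem_filter, not_not] at hp hq
      have h5 := (hZ p hp.1).1.eq_of_mem (hZ q hq.1).1 hp.2 hq.2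
      rw [← (hZ p hp.1).2, ← (hZ q hq.1).2, h5]
    exact_mod_cast this
  have hinj : Set.InjOn Z F3 := by
    intro p hp q hq hpq
    rw [mem_coe, hF3, mem_filter] at hp hq
    rw [← (hZ p hp.1).2, ← (hZ q hq.1).2, hpq]
  have hb3 : (F3.card : ℝ) ≤ C2 / ε * (1 + Real.log ((Q + P : ℕ) : ℝ) + Real.log (1 / ε)) := by
    rw [← Finset.card_image_of_injOn hinj]
    apply h2 (Q + P) ε (by omega) hε0 hε1
    intro c hc
    obtain ⟨p, hp, rfl⟩ := mem_image.1 hc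
    rw [hF3, mem_filter] at hp
    obtain ⟨h3, h4⟩ := hZ p hp.1
    refine ⟨h3, hp.2, ?_, fun k => ?_⟩
    · rw [h4]
      rw [hF2, mem_filter, hFm] at hp
      exact hp.1.1.1.2
    · rw [h4]
      rw [hF2, mem_filter] at hp
      have := hp.1.2
      push Not at this
      exact this k
  -- the size of the second part
  have hlP : Real.log P ≤ 1 / ι * (P : ℝ) ^ ι := by
    have := Real.log_le_rpow_div (x := (P : ℝ)) hP0.le hι0
    rw [div_eq_mul_inv, mul_comm] at this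
    rwa [one_div]
  have hP1 : (1 : ℝ) ≤ (P : ℝ) ^ ι := Real.one_le_rpow hPr hι0.le
  have hlQ : Real.log ((Q : ℝ) + 1) ≤ (P : ℝ) ^ ι := by
    have hlq0 : 0 ≤ Real.log ((Q : ℝ) + 1) := Real.log_nonneg (by linarith)
    have h5 := Real.rpow_le_rpow (Real.rpow_nonneg hlq0 _) hQ hι0.le
    rwa [← Real.rpow_mul hlq0, show (1 + δ) * ι = 1 by rw [hι]; field_simp, Real.rpow_one] at h5
  have hlQP : Real.log ((Q + P : ℕ) : ℝ) ≤ Real.log ((Q : ℝ) + 1) + Real.log P := by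
    rw [← Real.log_mul (by linarith) hP0.ne']
    apply Real.log_le_log
    · push_cast; linarith
    · push_cast; nlinarith
  have hlε : Real.log (1 / ε) = κ * Real.log P := by
    rw [one_div, Real.log_inv, hε, Real.log_rpow hP0]; ring
  have hlP0 : 0 ≤ Real.log P := Real.log_nonneg hPr
  have hinvε : 1 / ε = (P : ℝ) ^ κ := by rw [hε, Real.rpow_neg hP0.le, one_div, inv_inv]
  have hb3' : (F3.card : ℝ) ≤ C2 * A * (P : ℝ) ^ θ := by
    refine hb3.trans ?_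
    have e1 : C2 / ε = C2 * (P : ℝ) ^ κ := by rw [← hinvε]; ring
    rw [e1, hlε, hθ, Real.rpow_add hP0]
    have h6 : 1 + Real.log ((Q + P : ℕ) : ℝ) + κ * Real.log P ≤ A * (P : ℝ) ^ ι := by
      have h7 : κ * Real.log P ≤ κ * (1 / ι * (P : ℝ) ^ ι) := mul_le_mul_of_nonneg_left hlP hκ0.le
      have h8 : 0 ≤ 1 / ι * (P : ℝ) ^ ι := by positivity
      rw [hA]
      have e2 : (2 + 2 / ι + κ / ι) * (P : ℝ) ^ ι = 2 * (P : ℝ) ^ ι + 2 * (1 / ι * (P : ℝ) ^ ι) + κ * (1 / ι * (P : ℝ) ^ ι) := by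
        ring
      rw [e2]
      linarith
    calc C2 * (P : ℝ) ^ κ * (1 + Real.log ((Q + P : ℕ) : ℝ) + κ * Real.log P)
        ≤ C2 * (P : ℝ) ^ κ * (A * (P : ℝ) ^ ι) := mul_le_mul_of_nonneg_left h6 (by positivity)
      _ = C2 * A * ((P : ℝ) ^ κ * (P : ℝ) ^ ι) := by ring
  have hPθ : (1 : ℝ) ≤ (P : ℝ) ^ θ := Real.one_le_rpow hPr (by positivity)
  have hfinal := rpow_le hθ1 c P hPr
  have h9 : (F2.card : ℝ) ≤ (C2 * A + 1) * (P : ℝ) ^ θ := by
    rw [hsplit2, add_mul, one_mul]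
    linarith
  have h10 : (C2 * A + 1) * (P : ℝ) ^ θ ≤ (C2 * A + 1) * (B * (P * Real.exp (-(c * Real.sqrt (Real.log P))))) :=
    mul_le_mul_of_nonneg_left hfinal (by positivity)
  have h11 : (F.card : ℝ) ≤ C1 * P * Real.exp (-(c * Real.sqrt (Real.log P))) +
      (C2 * A + 1) * (B * (P * Real.exp (-(c * Real.sqrt (Real.log P))))) := by
    rw [hsplit]; linarith
  refine h11.trans (le_of_eq ?_)
  ring

end Pool.Agent.Q179.CY
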